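import Pool.Agent.H262R3.Lk.Stubs

/-!
# Project MH: all series converge
-/

set_option autoImplicit false

namespace Pool.Agent.W933.MHSum

open Pool.Agent.H262R3.Lk

theorem main_nonneg (j : ℕ) (σ : ℝ) (n : ℕ) : 0 ≤ (Real.log n) ^ j / (n : ℝ) ^ (1 + σ) :=
  div_nonneg (pow_nonneg (Real.log_natCast_nonneg n) j) (Real.rpow_nonneg (Nat.cast_nonneg n) _)

theorem summable_main (j : ℕ) (σ : ℝ) (hσ : 0 < σ) :
    Summable (fun n : ℕ => (Real.log n) ^ j / (n : ℝ) ^ (1 + σ)) := by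
  set ε : ℝ := σ / (2 * (j + 1)) with hε
  have hε0 : 0 < ε := by positivity
  have h1 : Summable (fun n : ℕ => (ε⁻¹) ^ j * (1 / (n : ℝ) ^ (1 + σ / 2))) :=
    (Real.summable_one_div_nat_rpow.2 (by linarith)).mul_left _
  refine Summable.of_nonneg_of_le (main_nonneg j σ) (fun n => ?_) h1
  rcases Nat.eq_zero_or_pos n with hn | hn
  · subst hn
    rw [Nat.cast_zero, Real.zero_rpow (by linarith), div_zero]
    exact mul_nonneg (by positivity) (div_nonneg zero_le_one (Real.rpow_nonneg le_rfl _))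
  have hn0 : (0 : ℝ) < n := by exact_mod_cast hn
  have hn1 : (1 : ℝ) ≤ n := by exact_mod_cast hn
  have h2 : (Real.log n) ^ j ≤ ((n : ℝ) ^ ε / ε) ^ j :=
    pow_le_pow_left₀ (Real.log_natCast_nonneg n) (Real.log_le_rpow_div hn0.le hε0) j
  have h3 : ((n : ℝ) ^ ε / ε) ^ j ≤ (ε⁻¹) ^ j * (n : ℝ) ^ (σ / 2) := by
    rw [div_eq_mul_inv, mul_pow, mul_comm]
    refine mul_le_mul_of_nonneg_left ?_ (by positivity)
    rw [← Real.rpow_natCast, ← Real.rpow_mul hn0.le]
    refine Real.rpow_le_rpow_of_exponent_le hn1 ?_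
    rw [hε, div_mul_eq_mul_div, div_le_div_iff₀ (by positivity) (by norm_num)]
    have hj : (0 : ℝ) ≤ j := Nat.cast_nonneg j
    nlinarith
  have h4 : (n : ℝ) ^ (1 + σ) = (n : ℝ) ^ (1 + σ / 2) * (n : ℝ) ^ (σ / 2) := by
    rw [← Real.rpow_add hn0]
    congr 1
    ring
  have h5 : (0 : ℝ) < (n : ℝ) ^ (1 + σ / 2) := Real.rpow_pos_of_pos hn0 _
  have h6 : (0 : ℝ) < (n : ℝ) ^ (σ / 2) := Real.rpow_pos_of_pos hn0 _
  rw [h4, div_le_iff₀ (by positivity)]
  have h7 : (ε⁻¹) ^ j * (1 / (n : ℝ) ^ (1 + σ / 2)) * ((n : ℝ) ^ (1 + σ / 2) * (n : ℝ) ^ (σ / 2)) =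
      (ε⁻¹) ^ j * (n : ℝ) ^ (σ / 2) := by
    field_simp
  rw [h7]
  exact h2.trans h3

theorem mang_nonneg (j : ℕ) (σ : ℝ) (n : ℕ) :
    0 ≤ ArithmeticFunction.vonMangoldt n * ((Real.log n) ^ j / (n : ℝ) ^ (1 + σ)) :=
  mul_nonneg ArithmeticFunction.vonMangoldt_nonneg (main_nonneg j σ n)

theorem summable_mang (j : ℕ) (σ : ℝ) (hσ : 0 < σ) :
    Summable (fun n : ℕ =>
      ArithmeticFunction.vonMangoldt n * ((Real.log n) ^ j / (n : ℝ) ^ (1 + σ))) := by
  refine Summable.of_nonneg_of_le (mang_nonneg j σ) (fun n => ?_) (summable_main (j + 1) σ hσ)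
  calc ArithmeticFunction.vonMangoldt n * ((Real.log n) ^ j / (n : ℝ) ^ (1 + σ)) ≤
      Real.log n * ((Real.log n) ^ j / (n : ℝ) ^ (1 + σ)) :=
        mul_le_mul_of_nonneg_right ArithmeticFunction.vonMangoldt_le_log (main_nonneg j σ n)
    _ = _ := by rw [pow_succ]; ring

theorem sum_ : Pool.Agent.H262R3.Lk.St_SUM := by
  intro z q b j σ hσ
  have h1 := summable_main j σ hσ
  have h2 := summable_mang j σ hσ
  refine ⟨?_, ?_, h1, h2⟩
  · refine Summable.of_nonneg_of_le (fun n => ?_) (fun n => ?_) h1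
    · unfold aj
      split_ifs
      · exact main_nonneg j σ n
      · exact le_rfl
    · unfold aj
      split_ifs
      · exact le_rfl
      · exact main_nonneg j σ n
  · refine Summable.of_nonneg_of_le (fun n => ?_) (fun n => ?_) h2
    · unfold bj
      split_ifs
      · exact mang_nonneg j σ n
      · exact le_rfl
    · unfold bj
      split_ifs
      · exact le_rfl
      · exact mang_nonneg j σ n

end Pool.Agent.W933.MHSum
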